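import Mathlib
import Pool.Agent.N838.TW.Spec2
import Pool.Agent.N984.TW.BlkNear

/-!
# Second order coefficients of the energies along curves
-/

open MeasureTheory Matrix Filter
open scoped Matrix.Norms.Frobenius ContDiff Topology
open Pool.Agent.H906R3.YM Pool.Agent.W793.YM Pool.Agent.TH618.YM

namespace Pool.Agent.N984.TW

set_option linter.unusedSectionVars false
set_option linter.unusedVariables false

noncomputable section

/-- the second order coefficient at `0+` -/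
def SO (T : ℝ → ℝ) (q : ℝ) : Prop := Tendsto (fun ε => T ε / ε ^ 2) (𝓝[>] 0) (𝓝 q)

lemma SO.add {T T' : ℝ → ℝ} {q q' : ℝ} (h : SO T q) (h' : SO T' q') :
    SO (fun ε => T ε + T' ε) (q + q') := by
  unfold SO at *
  refine (Tendsto.add h h').congr fun ε => ?_
  rw [add_div]

lemma SO.const_mul {T : ℝ → ℝ} {q : ℝ} (h : SO T q) (c : ℝ) :
    SO (fun ε => c * T ε) (c * q) := by
  unfold SO at *
  refine (Tendsto.const_mul c h).congr fun ε => ?_
  rw [mul_div_assoc]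

lemma SO.zero : SO (fun _ => 0) 0 := by
  unfold SO
  simp

lemma SO.sum {κ : Type*} (s : Finset κ) {T : κ → ℝ → ℝ} {q : κ → ℝ}
    (h : ∀ k ∈ s, SO (T k) (q k)) : SO (fun ε => ∑ k ∈ s, T k ε) (∑ k ∈ s, q k) := by
  unfold SO at *
  refine (tendsto_finsetSum s h).congr fun ε => ?_
  rw [Finset.sum_div]

lemma SO.ite {T T' : ℝ → ℝ} {q q' : ℝ} (Q : Prop) [Decidable Q] (h : SO T q) (h' : SO T' q') :
    SO (fun ε => if Q then T ε else T' ε) (if Q then q else q') := by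
  by_cases hQ : Q
  · simpa [hQ] using h
  · simpa [hQ] using h'

lemma SO.congr {T T' : ℝ → ℝ} {q : ℝ} (h : SO T q) (e : ∀ᶠ ε in 𝓝[>] (0 : ℝ), T' ε = T ε) :
    SO T' q := by
  unfold SO at *
  refine Tendsto.congr' ?_ h
  filter_upwards [e] with ε h1
  rw [h1]

lemma SO.eq {T : ℝ → ℝ} {q q' : ℝ} (h : SO T q) (e : q' = q) : SO T q' := by rw [e]; exact h

variable {N n : ℕ} {G : Subgroup (UN N)} (B : Frame G n) {hG : IsClosed (G : Set (UN N))}

lemma SO_norm {V : ℝ → Mat N} {D : Mat N} (h0 : V 0 = 1) (h : HasDerivAt V D 0) :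
    SO (fun ε => ‖V ε - 1‖ ^ 2) (‖D‖ ^ 2) := by
  unfold SO
  have h1 := h.tendsto_slope_zero_right
  have h2 := (h1.norm).pow 2
  refine h2.congr fun ε => ?_
  rw [zero_add, h0, norm_smul, norm_inv, Real.norm_eq_abs, mul_pow, inv_pow, sq_abs]
  ring

/-- curves in the group through the identity -/
def Crv (g : ℝ → G) (x : Fin n → ℝ) : Prop :=
  g 0 = 1 ∧ HasDerivAt (fun ε => mt (g ε)) (LX B x) 0

variable {B}

lemma Crv.mul {g g' : ℝ → G} {x x' : Fin n → ℝ} (h : Crv B g x) (h' : Crv B g' x') :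
    Crv B (fun ε => g ε * g' ε) (x + x') := by
  obtain ⟨h1, h2⟩ := h
  obtain ⟨h1', h2'⟩ := h'
  refine ⟨by simp [h1, h1'], ?_⟩
  have h3 := h2.mul h2'
  have e : (fun ε => mt (g ε * g' ε)) = (fun ε => mt (g ε)) * (fun ε => mt (g' ε)) := by
    funext ε
    rw [mt_mul]
    rfl
  rw [e]
  refine h3.congr_deriv ?_
  simp only [h1, h1', mt_one, mul_one, one_mul, LX_add]

lemma Crv.inv {g : ℝ → G} {x : Fin n → ℝ} (h : Crv B g x) : Crv B (fun ε => (g ε)⁻¹) (-x) := by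
  obtain ⟨h1, h2⟩ := h
  refine ⟨by simp [h1], ?_⟩
  have e : (fun ε => mt (g ε)⁻¹) = fun ε => (ctL N) (mt (g ε)) := by
    funext ε
    rw [mt_inv, ctL_apply]
  rw [e]
  have h3 := (ctL N).hasFDerivAt.comp_hasDerivAt (0 : ℝ) h2
  refine h3.congr_deriv ?_
  show (LX B x)ᴴ = LX B (-x)
  rw [LX_skew, LX_neg]

lemma Crv.conj {g : ℝ → G} {x : Fin n → ℝ} (h : Crv B g x) (k : G) :
    Crv B (fun ε => k * g ε * k⁻¹) (AdM B k x) := by
  obtain ⟨h1, h2⟩ := h
  refine ⟨by simp [h1], ?_⟩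
  have e : (fun ε => mt (k * g ε * k⁻¹)) = fun ε => mt k * (mt (g ε) * (mt k)ᴴ) := by
    funext ε
    rw [mt_mul, mt_mul, mt_inv, mul_assoc]
  rw [e, LX_AdM]
  exact (h2.mul_const _).const_mul _

lemma Crv.so {g : ℝ → G} {x : Fin n → ℝ} (h : Crv B g x) :
    SO (fun ε => ‖mt (g ε) - 1‖ ^ 2) (∑ a, x a ^ 2) := by
  have h1 := SO_norm (V := fun ε => mt (g ε)) (by simp [h.1, mt_one]) h.2
  rwa [norm_LX] at h1

lemma Crv.so_tr {g : ℝ → G} {x : Fin n → ℝ} (h : Crv B g x) :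
    SO (fun ε => (N : ℝ) - (trace (mt (g ε))).re) (1 / 2 * ∑ a, x a ^ 2) := by
  refine (h.so.const_mul (1 / 2)).congr (Eventually.of_forall fun ε => ?_)
  rw [tr_eq]

lemma Crv.congr {g g' : ℝ → G} {x x' : Fin n → ℝ} (h : Crv B g x) (e : ∀ ε, g' ε = g ε)
    (e' : x' = x) : Crv B g' x' := by
  have : g' = g := funext e
  rw [this, e']
  exact h

variable (B hG) in
/-- the curve `ε ↦ Ek (ε ξ)` -/
lemma Crv_Ek (ξ : Fin n → ℝ) : Crv B (fun ε : ℝ => Ek B hG (ε • ξ)) ξ := by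
  constructor
  · show Ek B hG ((0 : ℝ) • ξ) = 1
    rw [zero_smul]
    show Eg B hG (kap B 0) = 1
    rw [kap_zero, Eg_zero]
  · have e : (fun ε : ℝ => mt (Ek B hG (ε • ξ))) = fun ε : ℝ => EM B (kap B (ε • ξ)) := by
      funext ε
      exact mt_Ek B hG _
    rw [e]
    have h1 : HasDerivAt (fun ε : ℝ => ε • ξ) ξ 0 := by
      simpa using (hasDerivAt_id (0 : ℝ)).smul_const ξ
    have h2 : HasFDerivAt (kap B) (ContinuousLinearMap.id ℝ (Fin n → ℝ)) ((0 : ℝ) • ξ) := by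
      rw [zero_smul]; exact hasFDerivAt_kap B
    have h3 : HasDerivAt (fun ε : ℝ => kap B (ε • ξ)) ξ 0 := by
      have := h2.comp_hasDerivAt (0 : ℝ) h1
      exact this
    have h4 : HasFDerivAt (EM B) (LXl B) (kap B ((0 : ℝ) • ξ)) := by
      rw [zero_smul, kap_zero]; exact hasFDerivAt_EM B
    exact h4.comp_hasDerivAt (0 : ℝ) h3

/-! ### the gauge fixing function -/

section gauge

variable {T E : Type*} [Fintype T] [Fintype E] [DecidableEq T] [DecidableEq E] {s t : E → T}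
variable {φ₀ : E → G} {P : (E → Fin n → ℝ) →ₗ[ℝ] (T → Fin n → ℝ)} {Zc : Subgroup (T → G)}
variable {δ₀ c₀ : ℝ} (D : SliceD B hG s t φ₀ P Zc δ₀ c₀)

include D in
lemma gd_so {δ : ℝ} (hδ : 0 < δ) (hδ₀ : δ ≤ δ₀) (ξ : E → Fin n → ℝ) :
    SO (fun ε : ℝ => gd B hG s t φ₀ P δ (fun e => Ek B hG (ε • ξ e) * φ₀ e)) (sq (P ξ)) := by
  obtain ⟨xf, hx1, hx2, hx3⟩ := local_form D hδ hδ₀
  -- the derivative of `xf`
  have hd := (hx1.differentiableAt (by simp)).hasFDerivAt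
  have hder : ∀ w, fderiv ℝ xf 0 w = P w := by
    intro w
    have h1 : ∀ᶠ y in 𝓝 (0 : E → Fin n → ℝ), P (lgc B s t φ₀ (xf y, y)) = 0 := by
      filter_upwards [hx3] with y hy
      obtain ⟨v, -, h2, -, -, -, h3⟩ := hy
      rw [lgc_eq B hG]
      rw [← h3]
      exact h2
    have h2 : HasFDerivAt (fun y : E → Fin n → ℝ => (xf y, y))
        ((fderiv ℝ xf 0).prod (ContinuousLinearMap.id ℝ (E → Fin n → ℝ))) 0 :=
      hd.prodMk (hasFDerivAt_id _)
    have h3 : HasFDerivAt (lgc B s t φ₀) (Dlg B s t φ₀) ((fun y : E → Fin n → ℝ => (xf y, y)) 0) := by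
      show HasFDerivAt (lgc B s t φ₀) (Dlg B s t φ₀) (xf 0, 0)
      rw [hx2]
      exact hasFDerivAt_lgc B s t φ₀
    have h4 := HasFDerivAt.comp (g := lgc B s t φ₀) (f := fun y : E → Fin n → ℝ => (xf y, y))
      (0 : E → Fin n → ℝ) h3 h2
    have h5 := (LinearMap.toContinuousLinearMap P).hasFDerivAt.comp (0 : E → Fin n → ℝ) h4
    have h6 : HasFDerivAt (fun _ : E → Fin n → ℝ => (0 : T → Fin n → ℝ)) (0 : _ →L[ℝ] _) 0 :=
      hasFDerivAt_const _ _
    have h7 : HasFDerivAt (fun y : E → Fin n → ℝ => P (lgc B s t φ₀ (xf y, y))) (0 : _ →L[ℝ] _) 0 :=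
      h6.congr_of_eventuallyEq h1
    have h8 := h5.unique h7
    have h9 := congrArg (fun L : (E → Fin n → ℝ) →L[ℝ] (T → Fin n → ℝ) => L w) h8
    have h10 : P (w - Jl B s t φ₀ (fderiv ℝ xf 0 w)) = 0 := h9
    rw [map_sub] at h10
    have h11 : P (Jl B s t φ₀ (fderiv ℝ xf 0 w)) = fderiv ℝ xf 0 w :=
      LinearMap.congr_fun D.left _
    rw [h11] at h10
    exact (sub_eq_zero.1 h10).symm
  -- the curve
  have hy : HasDerivAt (fun ε : ℝ => (fun e => kap B (ε • ξ e) : E → Fin n → ℝ)) ξ 0 := by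
    rw [hasDerivAt_pi]
    intro e
    have h1 : HasDerivAt (fun ε : ℝ => ε • ξ e) (ξ e) 0 := by
      simpa using (hasDerivAt_id (0 : ℝ)).smul_const (ξ e)
    have h2 : HasFDerivAt (kap B) (ContinuousLinearMap.id ℝ (Fin n → ℝ)) ((0 : ℝ) • ξ e) := by
      rw [zero_smul]; exact hasFDerivAt_kap B
    have := h2.comp_hasDerivAt (0 : ℝ) h1
    exact this
  have hy0 : (fun e => kap B ((0 : ℝ) • ξ e) : E → Fin n → ℝ) = 0 := by
    funext e
    rw [zero_smul]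
    exact kap_zero B
  have hxc : HasDerivAt (fun ε : ℝ => xf (fun e => kap B (ε • ξ e))) (P ξ) 0 := by
    have h1 : HasFDerivAt xf (fderiv ℝ xf 0) (fun e => kap B ((0 : ℝ) • ξ e) : E → Fin n → ℝ) := by
      rw [hy0]; exact hd
    have h2 := h1.comp_hasDerivAt (0 : ℝ) hy
    rwa [hder] at h2
  have hcont : Tendsto (fun ε : ℝ => (fun e => kap B (ε • ξ e) : E → Fin n → ℝ)) (𝓝[>] 0) (𝓝 0) := by
    have h1 := hy.continuousAt.tendsto
    rw [hy0] at h1
    exact h1.mono_left nhdsWithin_le_nhds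
  have hmain : SO (fun ε : ℝ => ∑ y, ‖EM B (xf (fun e => kap B (ε • ξ e)) y) - 1‖ ^ 2)
      (∑ y, ∑ a, P ξ y a ^ 2) := by
    refine SO.sum _ fun y _ => ?_
    rw [← norm_LX B (P ξ y)]
    refine SO_norm (V := fun ε : ℝ => EM B (xf (fun e => kap B (ε • ξ e)) y)) ?_ ?_
    · show EM B (xf (fun e => kap B ((0 : ℝ) • ξ e)) y) = 1
      rw [hy0, hx2]
      exact EM_zero B
    · have h1 := (hasDerivAt_pi.1 hxc) y
      have h2 : HasFDerivAt (EM B) (LXl B) (xf (fun e => kap B ((0 : ℝ) • ξ e)) y) := by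
        rw [hy0, hx2]; exact hasFDerivAt_EM B
      exact h2.comp_hasDerivAt (0 : ℝ) h1
  refine hmain.congr ?_
  filter_upwards [hcont.eventually hx3] with ε h1
  obtain ⟨v, -, -, -, -, h3, -⟩ := h1
  have h4 : exM B hG φ₀ (fun e => kap B (ε • ξ e)) = fun e => Ek B hG (ε • ξ e) * φ₀ e := rfl
  rw [h4] at h3
  rw [h3]
  unfold nr
  exact Finset.sum_congr rfl fun y _ => by
    show ‖mt (Eg B hG _) - 1‖ ^ 2 = _
    rw [mt_Eg]

end gauge

end

end Pool.Agent.N984.TW
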