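import Mathlib
import Pool.Agent.N987.TW.Cur
import Pool.Agent.N990.TW.Form

/-!
# The Hessian of the energy of a block is the explicit quadratic form
-/

open MeasureTheory Matrix Filter
open scoped Matrix.Norms.Frobenius ContDiff Topology
open Pool.Agent.H906R3.YM Pool.Agent.W793.YM Pool.Agent.TH618.YM
open Pool.Agent.N990.TW (aof kof QB)

namespace Pool.Agent.N984.TW

set_option linter.unusedSectionVars false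
set_option linter.unusedVariables false

noncomputable section

variable {N l n : ℕ} [NeZero N] [NeZero l]

lemma adm_neg {G : Subgroup (UN N)} (B : Frame G n) (g : G) (x : Fin n → ℝ) :
    AdM B g (-x) = -AdM B g x := by
  have h := AdM_smul B g (-1) x
  simpa using h

namespace Dat

variable (𝔇 : Dat N l n)

/-- the curve of the link variables -/
def cu (ξ : II l → Fin n → ℝ) (ε : ℝ) : II l → SU N := fun p => Ek 𝔇.B 𝔇.hG (ε • ξ p)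

lemma crv_kF (ξ : II l → Fin n → ℝ) (j : Cn) (k : Fin 2) (y : Tor l) :
    Crv 𝔇.B (fun ε => kF j k (𝔇.cu ξ ε) y) (kof ξ j k y) :=
  Crv_Ek 𝔇.B 𝔇.hG _

lemma so_nr (ξ : II l → Fin n → ℝ) (j : Cn) (k : Fin 2) :
    SO (fun ε => nr (kF j k (𝔇.cu ξ ε))) (Pool.Agent.N990.TW.sq (kof ξ j k)) := by
  unfold nr Pool.Agent.N990.TW.sq
  exact SO.sum _ fun y _ => (𝔇.crv_kF ξ j k y).so

lemma so_SP (ξ : II l → Fin n → ℝ) (j₁ j₂ j₃ j₄ : Cn) (k₁ k₂ k₃ k₄ : Fin 2) :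
    SO (fun ε => SP (kF j₁ k₁ (𝔇.cu ξ ε)) (kF j₂ k₂ (𝔇.cu ξ ε)) (kF j₃ k₃ (𝔇.cu ξ ε))
      (kF j₄ k₄ (𝔇.cu ξ ε)))
      (1 / 2 * Pool.Agent.N990.TW.sq (kof ξ j₁ k₁ + kof ξ j₂ k₂ - kof ξ j₃ k₃ - kof ξ j₄ k₄)) := by
  unfold SP Pool.Agent.N990.TW.sq
  rw [Finset.mul_sum]
  refine SO.sum _ fun y _ => ?_
  have h := (((𝔇.crv_kF ξ j₁ k₁ y).mul (𝔇.crv_kF ξ j₂ k₂ y)).mul (𝔇.crv_kF ξ j₃ k₃ y).inv).mul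
    (𝔇.crv_kF ξ j₄ k₄ y).inv
  refine h.so_tr.eq ?_
  simp only [Pi.add_apply, Pi.sub_apply, Pi.neg_apply, ← sub_eq_add_neg]

lemma so_hop (ξ : II l → Fin n → ℝ) (i j : Cn) (k : Fin 2) :
    SO (fun ε => hop (𝔇.fF i (𝔇.cu ξ ε)) (kF i k (𝔇.cu ξ ε)) (𝔇.fF j (𝔇.cu ξ ε)))
      (1 / 2 * Pool.Agent.N990.TW.sq
        (Jl 𝔇.B sE tE 𝔇.φ₀ (kof ξ i k) + aof ξ j - aof ξ i)) := by
  unfold hop Pool.Agent.N990.TW.sq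
  rw [Finset.mul_sum]
  refine SO.sum _ fun e _ => ?_
  have h1 := 𝔇.crv_kF ξ i k (sE e)
  have h2 : Crv 𝔇.B (fun ε => 𝔇.cu ξ ε (j, (e.1, Fin.natAdd 2 e.2))) (aof ξ j e) :=
    Crv_Ek 𝔇.B 𝔇.hG _
  have h3 := (𝔇.crv_kF ξ i k (tE e)).inv.conj (𝔇.φ₀ e)
  have h4 : Crv 𝔇.B (fun ε => 𝔇.cu ξ ε (i, (e.1, Fin.natAdd 2 e.2))) (aof ξ i e) :=
    Crv_Ek 𝔇.B 𝔇.hG _
  have h := ((h1.mul h2).mul h3).mul h4.inv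
  refine ((h.congr (g' := fun ε => act sE tE (kF i k (𝔇.cu ξ ε)) (𝔇.fF j (𝔇.cu ξ ε)) e *
    (𝔇.fF i (𝔇.cu ξ ε) e)⁻¹) (fun ε => ?_) rfl).so_tr).eq ?_
  · unfold act fF
    group
  · congr 1
    refine Finset.sum_congr rfl fun a _ => ?_
    congr 1
    simp only [Pi.add_apply, Pi.sub_apply, Pi.neg_apply, adm_neg]
    show kof ξ i k (sE e) a - AdM 𝔇.B (𝔇.φ₀ e) (kof ξ i k (tE e)) a + aof ξ j e a - aof ξ i e a = _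
    ring

lemma flat_phi0 (hz : IsPrimitiveRoot 𝔇.z N) (y : Tor l) :
    mt (plT 𝔇.φ₀ y) = twT 𝔇.z y • (1 : Mat N) := by
  have hV : VV 𝔇.z 𝔇.φ₀ = 0 := by
    obtain ⟨C, hC⟩ := 𝔇.Vu
    have h1 := hC 𝔇.φ₀
    have h2 : nM 𝔇.φ₀ 𝔇.φ₀ = 0 := by
      rw [nM_eq]
      exact Finset.sum_eq_zero fun e _ => by rw [sub_self, norm_zero]; norm_num
    rw [h2, mul_zero] at h1
    exact le_antisymm h1 (𝔇.V0 _)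
  have h1 := (VV_eq hz 𝔇.φ₀).symm.trans hV
  rw [Finset.sum_eq_zero_iff_of_nonneg (fun y _ => by positivity)] at h1
  have h2 := h1 y (Finset.mem_univ y)
  have h3 : ‖mt (plT 𝔇.φ₀ y) - twT 𝔇.z y • (1 : Mat N)‖ ^ 2 = 0 := by linarith
  exact sub_eq_zero.1 (norm_eq_zero.1 (pow_eq_zero_iff two_ne_zero |>.1 h3))

/-- the part of the plaquette which depends on the links -/
lemma plaq_curve (hz : IsPrimitiveRoot 𝔇.z N) (ξ : II l → Fin n → ℝ) (j : Cn) (y : Tor l) :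
    ∃ g : ℝ → SU N, Crv 𝔇.B g (Pool.Agent.N990.TW.J1c 𝔇.B 𝔇.φ₀ (aof ξ j) y) ∧
      ∀ ε, plT (𝔇.fF j (𝔇.cu ξ ε)) y = plT 𝔇.φ₀ y * g ε := by
  have hc : ∀ e : Tor l × Fin 2, Crv 𝔇.B (fun ε => 𝔇.cu ξ ε (j, (e.1, Fin.natAdd 2 e.2)))
      (aof ξ j e) := fun e => Crv_Ek 𝔇.B 𝔇.hG _
  obtain ⟨b, hb⟩ : ∃ b : SU N, b = 𝔇.φ₀ (y, 0) * 𝔇.φ₀ (y + uT l 0, 1) *
    (𝔇.φ₀ (y + uT l 1, 0))⁻¹ := ⟨_, rfl⟩
  have hbW : b = plT 𝔇.φ₀ y * 𝔇.φ₀ (y, 1) := by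
    rw [hb]
    unfold plT
    group
  have hAd : ∀ x, AdM 𝔇.B b x = AdM 𝔇.B (𝔇.φ₀ (y, 1)) x := by
    intro x
    rw [hbW, AdM_mul]
    exact AdM_of_scalar 𝔇.B (𝔇.flat_phi0 hz y) _
  have h := (((hc (y, 0)).mul ((hc (y + uT l 0, 1)).conj (𝔇.φ₀ (y, 0)))).mul
    ((hc (y + uT l 1, 0)).inv.conj b)).mul (hc (y, 1)).inv
  refine ⟨_, h.congr (fun ε => rfl) ?_, fun ε => ?_⟩
  · funext a
    simp only [Pi.add_apply, Pi.neg_apply, adm_neg, hAd]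
    show aof ξ j (y, 0) a + AdM 𝔇.B (𝔇.φ₀ (y, 0)) (aof ξ j (y + uT l 0, 1)) a -
      AdM 𝔇.B (𝔇.φ₀ (y, 1)) (aof ξ j (y + uT l 1, 0)) a - aof ξ j (y, 1) a = _
    ring
  · obtain ⟨p, hp⟩ : ∃ p, p = plT 𝔇.φ₀ y := ⟨_, rfl⟩
    have e2 : ∀ g : SU N, p * g = g * p := by
      intro g
      refine mt_inj ?_
      rw [mt_mul, mt_mul, hp, 𝔇.flat_phi0 hz, smul_mul_assoc, one_mul, mul_smul_comm, mul_one]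
    have e3 : p = b * (𝔇.φ₀ (y, 1))⁻¹ := by
      rw [hp, hbW]; group
    obtain ⟨u1, h1⟩ : ∃ u1, u1 = 𝔇.cu ξ ε (j, (y, Fin.natAdd 2 (0 : Fin 2))) := ⟨_, rfl⟩
    obtain ⟨u2, h2⟩ : ∃ u2, u2 = 𝔇.cu ξ ε (j, (y + uT l 0, Fin.natAdd 2 (1 : Fin 2))) := ⟨_, rfl⟩
    obtain ⟨u3, h3⟩ : ∃ u3, u3 = 𝔇.cu ξ ε (j, (y + uT l 1, Fin.natAdd 2 (0 : Fin 2))) := ⟨_, rfl⟩
    obtain ⟨u4, h4⟩ : ∃ u4, u4 = 𝔇.cu ξ ε (j, (y, Fin.natAdd 2 (1 : Fin 2))) := ⟨_, rfl⟩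
    have eL : plT (𝔇.fF j (𝔇.cu ξ ε)) y = u1 * 𝔇.φ₀ (y, 0) * (u2 * 𝔇.φ₀ (y + uT l 0, 1)) *
        (u3 * 𝔇.φ₀ (y + uT l 1, 0))⁻¹ * (u4 * 𝔇.φ₀ (y, 1))⁻¹ := by
      rw [h1, h2, h3, h4]
      rfl
    have eR : plT 𝔇.φ₀ y * (𝔇.cu ξ ε (j, (y, Fin.natAdd 2 (0 : Fin 2))) * (𝔇.φ₀ (y, 0) *
          𝔇.cu ξ ε (j, (y + uT l 0, Fin.natAdd 2 (1 : Fin 2))) * (𝔇.φ₀ (y, 0))⁻¹) *
          (b * (𝔇.cu ξ ε (j, (y + uT l 1, Fin.natAdd 2 (0 : Fin 2))))⁻¹ * b⁻¹) *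
          (𝔇.cu ξ ε (j, (y, Fin.natAdd 2 (1 : Fin 2))))⁻¹) =
        p * ((u1 * (𝔇.φ₀ (y, 0) * u2 * (𝔇.φ₀ (y, 0))⁻¹) * (b * u3⁻¹ * b⁻¹)) * u4⁻¹) := by
      rw [h1, h2, h3, h4, hp]
    refine eL.trans (Eq.trans ?_ eR.symm)
    rw [← mul_assoc p, e2, mul_assoc _ p, e3, hb]
    group

lemma so_VV (hz : IsPrimitiveRoot 𝔇.z N) (ξ : II l → Fin n → ℝ) (j : Cn) :
    SO (fun ε => VV 𝔇.z (𝔇.fF j (𝔇.cu ξ ε)))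
      (1 / 2 * Pool.Agent.N990.TW.sq (Pool.Agent.N990.TW.J1c 𝔇.B 𝔇.φ₀ (aof ξ j))) := by
  have hT : (fun ε => VV 𝔇.z (𝔇.fF j (𝔇.cu ξ ε))) = fun ε => ∑ y : Tor l, (1 / 2 : ℝ) *
      ‖mt (plT (𝔇.fF j (𝔇.cu ξ ε)) y) - twT 𝔇.z y • (1 : Mat N)‖ ^ 2 :=
    funext fun ε => VV_eq hz _
  rw [hT]
  unfold Pool.Agent.N990.TW.sq
  rw [Finset.mul_sum]
  refine SO.sum _ fun y _ => ?_
  obtain ⟨g, hg, he⟩ := 𝔇.plaq_curve hz ξ j y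
  refine (hg.so.const_mul (1 / 2)).congr (Eventually.of_forall fun ε => ?_)
  congr 1
  rw [he, mt_mul, 𝔇.flat_phi0 hz, smul_mul_assoc, one_mul, ← smul_sub, norm_smul, norm_twT hz,
    one_mul]

/-- the second order coefficient of the energy of a block -/
lemma so_bnear (hz : IsPrimitiveRoot 𝔇.z N) {δ : ℝ} (hδ : 0 < δ) (hδ₀ : δ ≤ 𝔇.δ₀)
    (fl : Finset Cn) (ξ : II l → Fin n → ℝ) :
    SO (fun ε => 𝔇.bnear δ fl (𝔇.cu ξ ε)) (1 / 2 * QB 𝔇 𝔇.κ fl ξ) := by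
  have h1 : SO (fun ε => 1 / 4 * (∑ j : Cn, if j ∈ fl then
      (VV 𝔇.z (𝔇.fF j (𝔇.cu ξ ε)) + 𝔇.κ * gd 𝔇.B 𝔇.hG sE tE 𝔇.φ₀ 𝔇.P δ (𝔇.fF j (𝔇.cu ξ ε))) else 0))
      (1 / 4 * (∑ j : Cn, if j ∈ fl then (1 / 2 * Pool.Agent.N990.TW.sq
        (Pool.Agent.N990.TW.J1c 𝔇.B 𝔇.φ₀ (aof ξ j)) +
        𝔇.κ * Pool.Agent.N990.TW.sq (𝔇.P (aof ξ j))) else 0)) := by
    refine (SO.sum _ fun j _ => SO.ite _ ((𝔇.so_VV hz ξ j).add ?_) SO.zero).const_mul _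
    exact (gd_so 𝔇.D hδ hδ₀ (aof ξ j)).const_mul _
  have h2 : SO (fun ε => 1 / 2 * (∑ b : Fin 2, if (0, b) ∈ fl ∧ (1, b) ∈ fl then
      hop (𝔇.fF (0, b) (𝔇.cu ξ ε)) (kF (0, b) 0 (𝔇.cu ξ ε)) (𝔇.fF (1, b) (𝔇.cu ξ ε)) else 0))
      (1 / 2 * (∑ b : Fin 2, if (0, b) ∈ fl ∧ (1, b) ∈ fl then
        (1 / 2 * Pool.Agent.N990.TW.sq (Jl 𝔇.B sE tE 𝔇.φ₀ (kof ξ (0, b) 0) +
          aof ξ (1, b) - aof ξ (0, b))) else 0)) :=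
    (SO.sum _ fun b _ => SO.ite _ (𝔇.so_hop ξ (0, b) (1, b) 0) SO.zero).const_mul _
  have h3 : SO (fun ε => 1 / 2 * (∑ a : Fin 2, if (a, 0) ∈ fl ∧ (a, 1) ∈ fl then
      hop (𝔇.fF (a, 0) (𝔇.cu ξ ε)) (kF (a, 0) 1 (𝔇.cu ξ ε)) (𝔇.fF (a, 1) (𝔇.cu ξ ε)) else 0))
      (1 / 2 * (∑ a : Fin 2, if (a, 0) ∈ fl ∧ (a, 1) ∈ fl then
        (1 / 2 * Pool.Agent.N990.TW.sq (Jl 𝔇.B sE tE 𝔇.φ₀ (kof ξ (a, 0) 1) +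
          aof ξ (a, 1) - aof ξ (a, 0))) else 0)) :=
    (SO.sum _ fun b _ => SO.ite _ (𝔇.so_hop ξ (b, 0) (b, 1) 1) SO.zero).const_mul _
  have h4 := SO.ite ((0, 0) ∈ fl ∧ (1, 0) ∉ fl) (𝔇.so_nr ξ (0, 0) 0) SO.zero
  have h5 := SO.ite ((0, 0) ∈ fl ∧ (0, 1) ∉ fl) (𝔇.so_nr ξ (0, 0) 1) SO.zero
  have h6 := SO.ite ((0, 0) ∈ fl) (SO.ite ((1, 0) ∈ fl ∧ (0, 1) ∈ fl ∧ (1, 1) ∈ fl)
    (𝔇.so_SP ξ (0, 0) (1, 0) (0, 1) (0, 0) 0 1 0 1) SO.zero) SO.zero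
  have h := ((((h1.add h2).add h3).add h4).add h5).add h6
  refine h.eq ?_
  unfold QB
  have t1 : (∑ j : Cn, if j ∈ fl then
      Pool.Agent.N990.TW.sq (Pool.Agent.N990.TW.J1c 𝔇.B 𝔇.φ₀ (aof ξ j)) +
        2 * 𝔇.κ * Pool.Agent.N990.TW.sq (𝔇.P (aof ξ j)) else 0) = 2 *
      (∑ j : Cn, if j ∈ fl then (1 / 2 * Pool.Agent.N990.TW.sq
        (Pool.Agent.N990.TW.J1c 𝔇.B 𝔇.φ₀ (aof ξ j)) +
        𝔇.κ * Pool.Agent.N990.TW.sq (𝔇.P (aof ξ j))) else 0) := by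
    rw [Finset.mul_sum]
    refine Finset.sum_congr rfl fun j _ => ?_
    split_ifs
    · ring
    · ring
  have t2 : (∑ b : Fin 2, if (0, b) ∈ fl ∧ (1, b) ∈ fl then
      Pool.Agent.N990.TW.sq (Jl 𝔇.B sE tE 𝔇.φ₀ (kof ξ (0, b) 0) + aof ξ (1, b) - aof ξ (0, b))
      else 0) = 2 * (∑ b : Fin 2, if (0, b) ∈ fl ∧ (1, b) ∈ fl then
        (1 / 2 * Pool.Agent.N990.TW.sq (Jl 𝔇.B sE tE 𝔇.φ₀ (kof ξ (0, b) 0) +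
          aof ξ (1, b) - aof ξ (0, b))) else 0) := by
    rw [Finset.mul_sum]
    refine Finset.sum_congr rfl fun j _ => ?_
    split_ifs
    · ring
    · ring
  have t3 : (∑ a : Fin 2, if (a, 0) ∈ fl ∧ (a, 1) ∈ fl then
      Pool.Agent.N990.TW.sq (Jl 𝔇.B sE tE 𝔇.φ₀ (kof ξ (a, 0) 1) + aof ξ (a, 1) - aof ξ (a, 0))
      else 0) = 2 * (∑ a : Fin 2, if (a, 0) ∈ fl ∧ (a, 1) ∈ fl then
        (1 / 2 * Pool.Agent.N990.TW.sq (Jl 𝔇.B sE tE 𝔇.φ₀ (kof ξ (a, 0) 1) +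
          aof ξ (a, 1) - aof ξ (a, 0))) else 0) := by
    rw [Finset.mul_sum]
    refine Finset.sum_congr rfl fun j _ => ?_
    split_ifs
    · ring
    · ring
  rw [t1, t2, t3]
  split_ifs <;> ring

/-- **The Hessian of the energy of a block.** -/
theorem hess_QB (hz : IsPrimitiveRoot 𝔇.z N) {δ : ℝ} (hδ : 0 < δ) (hδ₀ : δ ≤ 𝔇.δ₀)
    (fl : Finset Cn) (ξ : II l → Fin n → ℝ) :
    hess (𝔇.HH hδ hδ₀ fl) ξ ξ = QB 𝔇 𝔇.κ fl ξ := by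
  obtain ⟨h0, h1, h2⟩ := 𝔇.HH_zero hδ hδ₀ fl
  have hsm : Tendsto (fun ε : ℝ => ε • ξ) (𝓝[>] 0) (𝓝 0) := by
    have : Continuous fun ε : ℝ => ε • ξ := by fun_prop
    have h3 := this.tendsto 0
    rw [zero_smul] at h3
    exact h3.mono_left nhdsWithin_le_nhds
  have e1 : SO (fun ε => 𝔇.HH hδ hδ₀ fl (ε • ξ)) (1 / 2 * QB 𝔇 𝔇.κ fl ξ) := by
    refine (𝔇.so_bnear hz hδ hδ₀ fl ξ).congr ?_
    filter_upwards [hsm.eventually h2] with ε hε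
    exact hε.1
  obtain ⟨C, r, hC, hr, hT⟩ := taylor2 (𝔇.HH_cd3 hδ hδ₀ fl) h1 h0
  have e2 : SO (fun ε => 𝔇.HH hδ hδ₀ fl (ε • ξ)) (1 / 2 * hess (𝔇.HH hδ hδ₀ fl) ξ ξ) := by
    unfold SO
    rw [tendsto_iff_norm_sub_tendsto_zero]
    have hb : Tendsto (fun ε : ℝ => C * ‖ξ‖ ^ 3 * ε) (𝓝[>] 0) (𝓝 0) := by
      have : Continuous fun ε : ℝ => C * ‖ξ‖ ^ 3 * ε := by fun_prop
      have h3 := this.tendsto 0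
      rw [mul_zero] at h3
      exact h3.mono_left nhdsWithin_le_nhds
    refine squeeze_zero' (Eventually.of_forall fun _ => norm_nonneg _) ?_ hb
    have h3 : ∀ᶠ ε : ℝ in 𝓝[>] 0, ‖ε • ξ‖ ≤ r := by
      have h4 := hsm.norm
      rw [norm_zero] at h4
      exact h4.eventually (ge_mem_nhds hr)
    filter_upwards [h3, self_mem_nhdsWithin] with ε h4 (h5 : 0 < ε)
    have h6 := hT _ h4
    rw [map_smul, map_smul, _root_.smul_apply, smul_eq_mul, smul_eq_mul, norm_smul,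
      Real.norm_eq_abs, abs_of_pos h5] at h6
    have h7 : 𝔇.HH hδ hδ₀ fl (ε • ξ) / ε ^ 2 - 1 / 2 * hess (𝔇.HH hδ hδ₀ fl) ξ ξ =
        (𝔇.HH hδ hδ₀ fl (ε • ξ) - 1 / 2 * (ε * (ε * hess (𝔇.HH hδ hδ₀ fl) ξ ξ))) / ε ^ 2 := by
      field_simp
    rw [h7, Real.norm_eq_abs, abs_div, abs_of_pos (by positivity : 0 < ε ^ 2),
      div_le_iff₀ (by positivity)]
    refine h6.trans (le_of_eq ?_)
    ring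
  have h3 := tendsto_nhds_unique e1 e2
  linarith

end Dat

end

end Pool.Agent.N984.TW
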